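import Pool.Agent.Helper33.KD4.WrapDefs

/-! KD project (MP_019250_an), Part IV.8b: transport of regularity. -/

namespace KD.IV

open MeasureTheory Set Filter Topology

variable {d : ℕ}

namespace REGVaux

/-- the coordinate change on `ℝ × V × V` -/
noncomputable def ph (d : ℕ) : ℝ × Vd d × Vd d → ℝ × Ed d × Ed d :=
  fun p => (p.1, toE d p.2.1, toE d p.2.2)

theorem ph_cont : Continuous (ph d) := by
  unfold ph
  fun_prop

theorem DE_open : IsOpen (DE d) := by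
  have h : DE d = {p : ℝ × Ed d × Ed d | 0 < p.1} ∩ ({p | p.1 < 1} ∩
      ({p | ‖p.2.1‖ < 1} ∩ {p | ‖p.2.2‖ < 1})) := by
    ext p
    simp [DE]
  rw [h]
  refine (isOpen_lt continuous_const continuous_fst).inter
    ((isOpen_lt continuous_fst continuous_const).inter
    ((isOpen_lt (by fun_prop) continuous_const).inter (isOpen_lt (by fun_prop) continuous_const)))

theorem DV_eq : DV d = ph d ⁻¹' DE d := rfl

theorem DV_open : IsOpen (DV d) := by
  rw [DV_eq]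
  exact DE_open.preimage ph_cont

/-- the coordinate change as a continuous linear map -/
noncomputable abbrev eL (d : ℕ) : Vd d →L[ℝ] Ed d := (toE d : Vd d →L[ℝ] Ed d)

/-- precomposition with the coordinate change -/
noncomputable def pc (d : ℕ) : (Ed d →L[ℝ] ℝ) →L[ℝ] (Vd d →L[ℝ] ℝ) :=
  (ContinuousLinearMap.compL ℝ (Vd d) (Ed d) ℝ).flip (eL d)

theorem pc_apply (g : Ed d →L[ℝ] ℝ) : pc d g = g.comp (eL d) := rfl

theorem fV_eq (f : ℝ → Ed d → Ed d → ℝ) {t : ℝ} {x v : Vd d} (h0 : 0 < t) (h1 : t < 1)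
    (hx : ‖toE d x‖ < 1) : fV f t x v = f t (toE d x) (toE d v) := by
  unfold fV
  rw [if_pos ⟨h0, h1, hx⟩]

end REGVaux

open REGVaux

/-- **IV.8b REGV**: transport of regularity. -/
theorem REGV_pf {f : ℝ → Ed d → Ed d → ℝ} {ft : ℝ → Ed d → Ed d → ℝ}
    {fx fv : ℝ → Ed d → Ed d → (Ed d →L[ℝ] ℝ)}
    {fvv : ℝ → Ed d → Ed d → (Ed d →L[ℝ] Ed d →L[ℝ] ℝ)} (hR : RegE f ft fx fv fvv) :
    ∃ (ft' : ℝ → Vd d → Vd d → ℝ) (fx' fv' : ℝ → Vd d → Vd d → (Vd d →L[ℝ] ℝ))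
      (fvv' : ℝ → Vd d → Vd d → (Vd d →L[ℝ] Vd d →L[ℝ] ℝ)),
      Reg (fV f) ft' fx' fv' fvv' (DV d) ∧
      ∀ p ∈ DV d, ft' p.1 p.2.1 p.2.2 = ft p.1 (toE d p.2.1) (toE d p.2.2) ∧
        fx' p.1 p.2.1 p.2.2 p.2.2 = fx p.1 (toE d p.2.1) (toE d p.2.2) (toE d p.2.2) := by
  refine ⟨fun t x v => ft t (toE d x) (toE d v), fun t x v => pc d (fx t (toE d x) (toE d v)),
    fun t x v => pc d (fv t (toE d x) (toE d v)),
    fun t x v => (pc d).comp ((fvv t (toE d x) (toE d v)).comp (eL d)), ?_, fun p hp => ⟨rfl, rfl⟩⟩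
  have hmaps : MapsTo (ph d) (DV d) (DE d) := fun p hp => hp
  have hphc : ContinuousOn (ph d) (DV d) := ph_cont.continuousOn
  refine
    { opn := DV_open
      cf := ?_
      dt := ?_
      dx := ?_
      dv := ?_
      dvv := ?_
      ct := ?_
      cx := ?_
      cv := ?_
      cvv := ?_ }
  · have h1 := hR.cf.comp hphc hmaps
    refine h1.congr fun p hp => ?_
    obtain ⟨h0, h1, h2, h3⟩ := hp
    exact fV_eq f h0 h1 h2
  · rintro ⟨t, x, v⟩ hp
    have h1 := hR.dt _ (hmaps hp)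
    obtain ⟨h0, h1', h2, h3⟩ := hp
    refine h1.congr_of_eventuallyEq ?_
    filter_upwards [isOpen_Ioo.mem_nhds (show t ∈ Ioo (0 : ℝ) 1 from ⟨h0, h1'⟩)] with u hu
    exact fV_eq f hu.1 hu.2 h2
  · rintro ⟨t, x, v⟩ hp
    have h1 := (hR.dx _ (hmaps hp)).comp x (eL d).hasFDerivAt
    obtain ⟨h0, h1', h2, h3⟩ := hp
    refine h1.congr_of_eventuallyEq ?_
    have hop : IsOpen {y : Vd d | ‖toE d y‖ < 1} := isOpen_lt (by fun_prop) continuous_const
    filter_upwards [hop.mem_nhds (show x ∈ {y : Vd d | ‖toE d y‖ < 1} from h2)] with u hu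
    exact fV_eq f h0 h1' hu
  · rintro ⟨t, x, v⟩ hp
    have h1 := (hR.dv _ (hmaps hp)).comp v (eL d).hasFDerivAt
    obtain ⟨h0, h1', h2, h3⟩ := hp
    refine h1.congr_of_eventuallyEq ?_
    exact Eventually.of_forall fun u => fV_eq f h0 h1' h2
  · rintro ⟨t, x, v⟩ hp
    have h1 := (hR.dvv _ (hmaps hp)).comp v (eL d).hasFDerivAt
    exact (pc d).hasFDerivAt.comp v h1
  · exact hR.ct.comp hphc hmaps
  · exact (pc d).continuous.comp_continuousOn (hR.cx.comp hphc hmaps)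
  · exact (pc d).continuous.comp_continuousOn (hR.cv.comp hphc hmaps)
  · have h1 := hR.cvv.comp hphc hmaps
    have h2 : Continuous fun g : Ed d →L[ℝ] Ed d →L[ℝ] ℝ => (pc d).comp (g.comp (eL d)) :=
      continuous_const.clm_comp (continuous_id.clm_comp continuous_const)
    exact h2.comp_continuousOn h1

end KD.IV
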